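import Pool.Agent.SLS.CrossC

/-!
# Special super edge-magic star forests with all centres on one side
-/

set_option autoImplicit false

namespace Pool.Agent.Results.MP_fb2988_co.OneSided

open Pool.Agent.StarF Pool.Agent.SLS

/-- Let `F` be the star forest with the `t ≥ 1` components `K_{1, m i}`, `m i ≥ 1`, and let
`4 m i + 2 m j ≥ t - 2` for all `i ≠ j` (this holds if `t ≤ 8`, and if all `m i ≥ (t - 2) / 6`).
Then `F` has a special super edge-magic labeling in which `V_1` is the set of all centres if and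
only if the components can be ordered such that `m_1 + ... + m_t` divides
`m_1 + 2 m_2 + ... + t m_t`; if there is such an order, then `F` is special super edge-magic. -/
theorem result {t : ℕ} (ht : 1 ≤ t) (m : Fin t → ℕ) (hm1 : ∀ i, 1 ≤ m i)
    (hm : ∀ i j, i ≠ j → t ≤ 4 * m i + 2 * m j + 2) :
    (SSEMWith (starForest m) (centres m) ↔
      ∃ σ : Equiv.Perm (Fin t), ∑ i, m i ∣ ∑ i, ((σ i : ℕ) + 1) * m i) ∧
    ((∃ σ : Equiv.Perm (Fin t), ∑ i, m i ∣ ∑ i, ((σ i : ℕ) + 1) * m i) →
      IsSSEM (starForest m)) := by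
  have h : SSEMWith (starForest m) (centres m) ↔
      ∃ σ : Equiv.Perm (Fin t), ∑ i, m i ∣ ∑ i, ((σ i : ℕ) + 1) * m i :=
    Half.with_iff_cross ht m hm1 hm
  exact ⟨h, fun hs => ⟨centres m, h.2 hs⟩⟩

end Pool.Agent.Results.MP_fb2988_co.OneSided
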