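import Pool.Agent.StarF.OddM

/-!
# Residue classes without special super edge-magic star forests, for every number of stars
-/

set_option autoImplicit false

namespace Pool.Agent.Results.MP_fb2988_co.ResidueClasses

open Pool.Agent.StarF

/-- For every `t ≥ 2` there are `M > 0` and `u : Fin t → ℕ` such that no star forest with the `t`
components `K_{1, m i}`, `m i ≡ u i` modulo `M` for all `i`, is special super edge-magic. -/
theorem result (t : ℕ) (ht : 2 ≤ t) : ∃ M : ℕ, 0 < M ∧ ∃ u : Fin t → ℕ,
    ∀ m : Fin t → ℕ, (∀ i, m i ≡ u i [MOD M]) → ¬ IsSSEM (starForest m) :=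
  class_all t ht

end Pool.Agent.Results.MP_fb2988_co.ResidueClasses
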