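import Pool.Agent.Helper7.SF.Suf

/-!
# The special super edge-magic star forests with at most three components
-/

set_option autoImplicit false

namespace Pool.Agent.Results.MP_fb2988_co.ThreeStars

open Pool.Agent.Helper7.SF

/-- A star forest with `t ≤ 3` components `K_{1,m_i}`, `m_i ≥ 1`, is special super edge-magic if
and only if `t = 1`, or `t = 3` and, for some order `x, y, z` of the three sizes, `x ≤ 2`, or
`y = z`, or `y = x a + b` and `z = x b + a` for natural numbers `a`, `b`. -/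
theorem result (t : ℕ) (ht : 1 ≤ t) (ht3 : t ≤ 3) (m : Fin t → ℕ) (hm : ∀ i, 1 ≤ m i) :
    IsSSEM (starForest m) ↔ t = 1 ∨ ∃ i j l : Fin t, i ≠ j ∧ i ≠ l ∧ j ≠ l ∧
      (m i ≤ 2 ∨ m j = m l ∨ ∃ a b : ℕ, m j = m i * a + b ∧ m l = m i * b + a) := by
  have h3 : t = 1 ∨ t = 2 ∨ t = 3 := by omega
  rcases h3 with rfl | rfl | rfl
  · exact ⟨fun _ => Or.inl rfl, fun _ => one_suf m⟩
  · constructor
    · intro h
      exact (not_two m hm h).elim
    · rintro (h | ⟨i, j, l, hij, hil, hjl, -⟩)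
      · omega
      · exact (by decide : ∀ i j l : Fin 2, ¬ (i ≠ j ∧ i ≠ l ∧ j ≠ l)) i j l ⟨hij, hil, hjl⟩ |>.elim
  · have third : ∀ i j : Fin 3, i ≠ j → ∃ l : Fin 3, l ≠ i ∧ l ≠ j := by decide
    have others : ∀ i : Fin 3, ∃ j l : Fin 3, i ≠ j ∧ i ≠ l ∧ j ≠ l := by decide
    constructor
    · intro h
      right
      rcases three_nec m hm h with ⟨i, hi⟩ | ⟨i, j, hij, h⟩ | ⟨i, j, l, hij, hil, hjl, k, u, h1, h2⟩
      · obtain ⟨j, l, hij, hil, hjl⟩ := others i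
        exact ⟨i, j, l, hij, hil, hjl, Or.inl hi⟩
      · obtain ⟨l, hli, hlj⟩ := third i j hij
        exact ⟨l, i, j, hli, hlj, hij, Or.inr (Or.inl h)⟩
      · exact ⟨i, j, l, hij, hil, hjl, Or.inr (Or.inr ⟨k, u, h1, h2⟩)⟩
    · rintro (h | ⟨i, j, l, hij, hil, hjl, h | h | ⟨k, u, h1, h2⟩⟩)
      · omega
      · exact three_suf m hm (Or.inl ⟨i, h⟩)
      · exact three_suf m hm (Or.inr (Or.inl ⟨j, l, hjl, h⟩))
      · exact three_suf m hm (Or.inr (Or.inr ⟨i, j, l, hij, hil, hjl, k, u, h1, h2⟩))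

end Pool.Agent.Results.MP_fb2988_co.ThreeStars
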