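import Pool.Agent.StarF.OddTwo
import Pool.Agent.StarF.Ones
import Pool.Agent.SFT.Even

/-!
# The special super edge-magic star forests with a component `K_{1,2}`
-/

set_option autoImplicit false

namespace Pool.Agent.Results.MP_fb2988_co.WithTwo

open Pool.Agent.StarF

/-- Let `F` be a star forest with the `t` components `K_{1, m i}`, `m i ≥ 1`, and let `m i₀ = 2`.
Then `F` is special super edge-magic if and only if `t` is odd, or `t ≥ 4` and some component other
than `i₀` is not `K_{1,1}`. -/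
theorem result {t : ℕ} (m : Fin t → ℕ) (hm : ∀ i, 1 ≤ m i) (i₀ : Fin t) (h2 : m i₀ = 2) :
    IsSSEM (starForest m) ↔ Odd t ∨ (4 ≤ t ∧ ∃ i, i ≠ i₀ ∧ m i ≠ 1) := by
  constructor
  · intro h
    by_contra hcon
    rw [not_or, Nat.not_odd_iff_even] at hcon
    obtain ⟨he, h3⟩ := hcon
    have h4 := i₀.2
    by_cases h5 : 4 ≤ t
    · apply not_two_ones he m i₀ h2 _ h
      intro i hi
      by_contra hne
      exact h3 ⟨h5, i, hi, hne⟩
    · obtain ⟨k, rfl⟩ := he.two_dvd
      obtain rfl : k = 1 := by omega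
      exact two_stars m hm h
  · intro h
    rcases Nat.even_or_odd t with he | ho
    · rcases h with ho | ⟨h4, h5⟩
      · obtain ⟨h, rfl⟩ := ho
        exact odd_two m hm ⟨i₀, h2⟩
      · obtain ⟨k, rfl⟩ := he.two_dvd
        obtain ⟨h, rfl⟩ : ∃ h, k = h + 1 := ⟨k - 1, by omega⟩
        exact SFT.even_two (h := h) (by omega) m hm i₀ h2 h5
    · obtain ⟨h, rfl⟩ := ho
      exact odd_two m hm ⟨i₀, h2⟩

end Pool.Agent.Results.MP_fb2988_co.WithTwo
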